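import Pool.Agent.Helper299.Jac.Grp

set_option autoImplicit false

open scoped Pointwise

namespace Pool.Agent.Helper299.Jac

noncomputable def nn : G := ⟨gen none, gen_mem none⟩

/-- Conjugates of the lamp. -/
noncomputable def cc (h : G) : G := h * nn * h⁻¹

theorem cc_val (h : G) : (cc h).1 = ((1 : Equiv.Perm Om), fl (pt h)) := by
  refine Prod.ext ?_ ?_
  · change h.1.1 * 1 * h.1.1⁻¹ = 1
    rw [mul_one, mul_inv_cancel]
  · change h.1.2 * fl rho * h.1.2⁻¹ = fl (pt h)
    rw [good_G h rho, mul_assoc, mul_inv_cancel, mul_one]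
    rfl

theorem cc_mul_self (h : G) : cc h * cc h = 1 := by
  apply Subtype.ext
  change (cc h).1 * (cc h).1 = 1
  rw [cc_val]
  refine Prod.ext ?_ ?_
  · exact mul_one 1
  · exact fl_mul_self _

theorem cc_comm (h k : G) : cc h * cc k = cc k * cc h := by
  apply Subtype.ext
  change (cc h).1 * (cc k).1 = (cc k).1 * (cc h).1
  rw [cc_val, cc_val]
  refine Prod.ext ?_ ?_
  · rfl
  · exact fl_comm _ _

theorem cc_eq {h k : G} (e : pt h = pt k) : cc h = cc k := by
  apply Subtype.ext
  rw [cc_val, cc_val, e]

theorem conj_cc (g h : G) : g * cc h = cc (g * h) * g := by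
  simp [cc, mul_assoc]

abbrev K := ZMod 2

abbrev R := MonoidAlgebra K G

noncomputable def X (h : G) : R := MonoidAlgebra.of K G (cc h) + 1

theorem two_R (x : R) : x + x = 0 := by
  have h : (1 : K) + 1 = 0 := by decide
  have : x + x = ((1 : K) + 1) • x := by rw [add_smul, one_smul]
  rw [this, h, zero_smul]

theorem X_sq (h : G) : X h * X h = 0 := by
  have e : X h * X h = MonoidAlgebra.of K G (cc h) * MonoidAlgebra.of K G (cc h)
      + (MonoidAlgebra.of K G (cc h) + MonoidAlgebra.of K G (cc h)) + 1 := by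
    unfold X; noncomm_ring
  rw [e, ← map_mul, cc_mul_self, map_one, two_R, add_zero, two_R]

theorem X_comm (h k : G) : X h * X k = X k * X h := by
  have e : MonoidAlgebra.of K G (cc h) * MonoidAlgebra.of K G (cc k)
      = MonoidAlgebra.of K G (cc k) * MonoidAlgebra.of K G (cc h) := by
    rw [← map_mul, ← map_mul, cc_comm]
  unfold X
  rw [add_mul, mul_add, mul_add, add_mul, mul_add, mul_add, e]
  simp only [mul_one, one_mul]
  abel

theorem X_eq {h k : G} (e : pt h = pt k) : X h = X k := by
  unfold X; rw [cc_eq e]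

theorem conj_X (g h : G) :
    MonoidAlgebra.of K G g * X h = X (g * h) * MonoidAlgebra.of K G g := by
  unfold X
  rw [mul_add, add_mul, ← map_mul, ← map_mul, conj_cc, mul_one, one_mul]

theorem X_mul_prod (h : G) (l : List G) (hl : pt h ∈ l.map pt) :
    X h * (l.map X).prod = 0 := by
  induction l with
  | nil => simp at hl
  | cons k l ih =>
    rw [List.map_cons, List.mem_cons] at hl
    rw [List.map_cons, List.prod_cons]
    rcases hl with e | hl
    · rw [X_eq e, ← mul_assoc, X_sq, zero_mul]
    · rw [← mul_assoc, X_comm, mul_assoc, ih hl, mul_zero]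

theorem prod_X (l : List G) (hl : ¬ (l.map pt).Nodup) : (l.map X).prod = 0 := by
  induction l with
  | nil => simp at hl
  | cons k l ih =>
    rw [List.map_cons, List.nodup_cons] at hl
    rw [List.map_cons, List.prod_cons]
    by_cases h : pt k ∈ l.map pt
    · exact X_mul_prod k l h
    · rw [ih (fun h' => hl ⟨h, h'⟩), mul_zero]

theorem of_prod_X (g : G) (l : List G) :
    MonoidAlgebra.of K G g * (l.map X).prod
      = ((l.map (fun h => g * h)).map X).prod * MonoidAlgebra.of K G g := by
  induction l with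
  | nil => simp
  | cons k l ih =>
    simp only [List.map_cons, List.prod_cons]
    rw [← mul_assoc, conj_X, mul_assoc, ih, mul_assoc]

theorem nn_eq : cc 1 = nn := by simp [cc]

theorem list_prod (l : List G) :
    (l.map (fun g => MonoidAlgebra.of K G g * X 1)).prod
      = ((Px l).map X).prod * MonoidAlgebra.of K G l.prod := by
  induction l with
  | nil => simp [Px, MonoidAlgebra.one_def]
  | cons g l ih =>
    simp only [List.map_cons, List.prod_cons, Px]
    rw [ih, conj_X, mul_one, map_mul, ← mul_assoc, mul_assoc (X g), of_prod_X]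
    simp only [mul_assoc]

theorem nilp (y : R) : IsNilpotent (y * X 1) := by
  classical
  set L : ℕ := y.coeff.support.sup (fun g => (wd g).length) with hL
  obtain ⟨k, hk⟩ := exists_bound L
  refine ⟨k, ?_⟩
  set S : Set R := (fun g => MonoidAlgebra.of K G g * X 1) '' (y.coeff.support : Set G) with hS
  have hmem : y * X 1 ∈ Submodule.span K S := by
    have h1 := MonoidAlgebra.mem_span_support_coeff y
    have h2 : y * X 1 ∈ Submodule.map (LinearMap.mulRight K (X 1))
        (Submodule.span K (MonoidAlgebra.of K G '' y.coeff.support)) :=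
      Submodule.mem_map_of_mem h1
    rw [Submodule.map_span] at h2
    have h3 : (LinearMap.mulRight K (X 1)) '' (MonoidAlgebra.of K G '' y.coeff.support) = S := by
      rw [hS, Set.image_image]; rfl
    rw [h3] at h2
    exact h2
  have hpow : (y * X 1) ^ k ∈ Submodule.span K (S ^ k) := by
    rw [← Submodule.span_pow]
    exact Submodule.pow_mem_pow _ hmem k
  have hz : S ^ k ⊆ {0} := by
    intro z hz
    rw [Set.mem_pow] at hz
    obtain ⟨f, rfl⟩ := hz
    have hf : ∀ i : Fin k, ∃ g : G, g ∈ y.coeff.support ∧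
        MonoidAlgebra.of K G g * X 1 = (f i : R) := by
      intro i
      obtain ⟨g, hg, he⟩ := (f i).2
      exact ⟨g, hg, he⟩
    choose g hg he using hf
    have h1 : (List.ofFn fun i => (f i : R))
        = (List.ofFn g).map (fun g => MonoidAlgebra.of K G g * X 1) := by
      rw [List.map_ofFn]
      congr 1
      funext i
      exact (he i).symm
    rw [h1, list_prod]
    have h2 := hk (List.ofFn g) (by simp) (by
      intro a ha
      rw [List.mem_ofFn] at ha
      obtain ⟨i, rfl⟩ := ha
      exact Finset.le_sup (f := fun g => (wd g).length) (hg i))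
    rw [prod_X _ h2, zero_mul]
    rfl
  have := Submodule.span_mono (R := K) hz hpow
  simpa using this

theorem X_mem_jacobson : X 1 ∈ Ideal.jacobson (⊥ : Ideal R) := by
  rw [Ideal.mem_jacobson_iff]
  intro y
  obtain ⟨u, hu⟩ := (nilp y).isUnit_add_one
  refine ⟨((u⁻¹ : Rˣ) : R), ?_⟩
  rw [Submodule.mem_bot]
  have : ((u⁻¹ : Rˣ) : R) * y * X 1 + ((u⁻¹ : Rˣ) : R) = 1 := by
    rw [mul_assoc]
    nth_rewrite 2 [← mul_one ((u⁻¹ : Rˣ) : R)]
    rw [← mul_add, ← hu, Units.inv_mul]
  rw [this, sub_self]

/-! Products over distinct points do not vanish. -/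

theorem cc_inv (h : G) : (cc h)⁻¹ = cc h := inv_eq_of_mul_eq_one_left (cc_mul_self h)

theorem X_mul_coeff (h : G) (P : R) (g : G) :
    (X h * P).coeff g = P.coeff (cc h * g) + P.coeff g := by
  unfold X
  rw [add_mul, one_mul, MonoidAlgebra.coeff_add, Finsupp.add_apply]
  congr 1
  rw [MonoidAlgebra.of_apply, MonoidAlgebra.coeff_single_mul_eq_mul_coeff (cc h * g), one_mul]
  intro m' _
  constructor
  · rintro rfl
    rw [← mul_assoc, cc_mul_self, one_mul]
  · rintro rfl
    rw [← mul_assoc, cc_mul_self, one_mul]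

theorem fl_ne {v w : Om} (h : w ≠ v) (b : Bool) : fl v (w, b) = (w, b) := by
  rw [fl_apply]; unfold flf; simp [h]

theorem fl_eq (v : Om) (b : Bool) : fl v (v, b) = (v, !b) := by
  rw [fl_apply]; unfold flf; simp

theorem coeff_prod_of_moves (w : Om) (l : List G) (hl : w ∉ l.map pt) :
    ∀ g : G, g.1.2 (w, false) ≠ (w, false) → (l.map X).prod.coeff g = 0 := by
  classical
  induction l with
  | nil =>
    intro g hg
    have hg1 : g ≠ 1 := by
      rintro rfl; exact hg rfl
    simp only [List.map_nil, List.prod_nil, MonoidAlgebra.one_def, MonoidAlgebra.coeff_single]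
    rw [Finsupp.single_apply, if_neg (fun h => hg1 h.symm)]
  | cons k l ih =>
    intro g hg
    rw [List.map_cons, List.mem_cons, not_or] at hl
    rw [List.map_cons, List.prod_cons, X_mul_coeff]
    have h1 : (cc k * g).1.2 (w, false) ≠ (w, false) := by
      intro h
      apply hg
      have e : (cc k * g).1.2 (w, false) = fl (pt k) (g.1.2 (w, false)) := by
        change (cc k).1.2 (g.1.2 (w, false)) = _
        rw [cc_val]
      rw [e] at h
      have h' := congrArg (fl (pt k)) h
      rw [fl_ne hl.1] at h'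
      have e2 : fl (pt k) (fl (pt k) (g.1.2 (w, false))) = g.1.2 (w, false) := flf_inv _ _
      rw [e2] at h'
      exact h'
    rw [ih hl.2 _ h1, ih hl.2 _ hg, add_zero]

theorem coeff_one_prod (l : List G) (hl : (l.map pt).Nodup) : (l.map X).prod.coeff 1 = 1 := by
  induction l with
  | nil => simp [MonoidAlgebra.one_def]
  | cons k l ih =>
    rw [List.map_cons, List.nodup_cons] at hl
    rw [List.map_cons, List.prod_cons, X_mul_coeff, ih hl.2]
    rw [coeff_prod_of_moves (pt k) l hl.1, zero_add]
    rw [mul_one, cc_val]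
    change fl (pt k) (pt k, false) ≠ (pt k, false)
    rw [fl_eq]
    simp

/-! `X 1` is in no nilpotent two-sided ideal. -/

def Nil (I : Ideal R) : Prop :=
  (∀ a ∈ I, ∀ b : R, a * b ∈ I) ∧
    ∃ n : ℕ, ∀ x : Fin n → R, (∀ i, x i ∈ I) → (List.ofFn x).prod = 0

theorem not_mem_of_Nil (I : Ideal R) (hI : Nil I) : X 1 ∉ I := by
  intro hx
  obtain ⟨h2, n, hn⟩ := hI
  have hX : ∀ h : G, X h ∈ I := by
    intro h
    have h3 : MonoidAlgebra.of K G h * X 1 * MonoidAlgebra.of K G h⁻¹ ∈ I :=
      h2 _ (I.mul_mem_left _ hx) _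
    rw [conj_X, mul_one, mul_assoc, ← map_mul, mul_inv_cancel, map_one, mul_one] at h3
    exact h3
  have h4 := hn (fun i => X (hh i)) (fun i => hX _)
  have h5 : (List.ofFn fun i : Fin n => X (hh i)) = (List.ofFn fun i : Fin n => hh i).map X := by
    rw [List.map_ofFn]; rfl
  rw [h5] at h4
  have h6 : ((List.ofFn fun i : Fin n => hh i).map pt).Nodup := by
    rw [List.map_ofFn, List.nodup_ofFn]
    intro i j hij
    simp only [Function.comp, pt_hh] at hij
    exact Fin.ext (rr_inj hij)
  have h7 := coeff_one_prod _ h6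
  rw [h4] at h7
  simp at h7

end Pool.Agent.Helper299.Jac
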