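import Pool.Agent.Helper299.Jac.Alg

set_option autoImplicit false

namespace Pool.Agent.Helper299.Jac

theorem list_of_fn {I : Ideal R} {n : ℕ}
    (h : ∀ x : Fin n → R, (∀ i, x i ∈ I) → (List.ofFn x).prod = 0) (l : List R)
    (hl : l.length = n) (hI : ∀ a ∈ l, a ∈ I) : l.prod = 0 := by
  subst hl
  have := h l.get (fun i => hI _ (List.get_mem l i))
  rwa [List.ofFn_get] at this

theorem list_sub {I J : Ideal R} (hJ : ∀ a ∈ J, ∀ b : R, a * b ∈ J) (l : List R)
    (hl : ∀ a ∈ l, a ∈ I ⊔ J) :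
    ∃ l' : List R, l'.length = l.length ∧ (∀ a ∈ l', a ∈ I) ∧ l.prod - l'.prod ∈ J := by
  induction l with
  | nil => exact ⟨[], rfl, by simp, by simp⟩
  | cons x t ih =>
    obtain ⟨t', h1, h2, h3⟩ := ih (fun a ha => hl a (by simp [ha]))
    obtain ⟨i, hi, j, hj, rfl⟩ := Submodule.mem_sup.1 (hl x (by simp))
    refine ⟨i :: t', by simp [h1], ?_, ?_⟩
    · intro a ha
      rw [List.mem_cons] at ha
      rcases ha with rfl | ha
      · exact hi
      · exact h2 a ha
    · rw [List.prod_cons, List.prod_cons]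
      have e : (i + j) * t.prod - i * t'.prod = i * (t.prod - t'.prod) + j * t.prod := by
        noncomm_ring
      rw [e]
      exact J.add_mem (J.mul_mem_left _ h3) (hJ _ hj _)

theorem blocks {I J : Ideal R} {n : ℕ} (hJ : ∀ a ∈ J, ∀ b : R, a * b ∈ J)
    (hI : ∀ l : List R, l.length = n → (∀ a ∈ l, a ∈ I) → l.prod = 0) (m : ℕ) :
    ∀ l : List R, l.length = m * n → (∀ a ∈ l, a ∈ I ⊔ J) →
      ∃ b : List R, b.length = m ∧ (∀ a ∈ b, a ∈ J) ∧ b.prod = l.prod := by
  induction m with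
  | zero =>
    intro l hl _
    rw [Nat.zero_mul, List.length_eq_zero_iff] at hl
    subst hl
    exact ⟨[], rfl, by simp, rfl⟩
  | succ m ih =>
    intro l hl h
    obtain ⟨b, h1, h2, h3⟩ := ih (l.drop n) (by rw [List.length_drop, hl, Nat.add_mul]; omega)
      (fun a ha => h a (List.mem_of_mem_drop ha))
    obtain ⟨l', h4, h5, h6⟩ := list_sub hJ (l.take n) (fun a ha => h a (List.mem_of_mem_take ha))
    have h7 : (l.take n).length = n := by
      rw [List.length_take, hl, Nat.add_mul]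
      omega
    rw [hI l' (h4.trans h7) h5, sub_zero] at h6
    refine ⟨(l.take n).prod :: b, by simp [h1], ?_, ?_⟩
    · intro a ha
      rw [List.mem_cons] at ha
      rcases ha with rfl | ha
      · exact h6
      · exact h2 a ha
    · rw [List.prod_cons, h3, ← List.prod_append, List.take_append_drop]

theorem Nil_sup {I J : Ideal R} (hI : Nil I) (hJ : Nil J) : Nil (I ⊔ J) := by
  obtain ⟨h1, n, hn⟩ := hI
  obtain ⟨h2, m, hm⟩ := hJ
  refine ⟨?_, m * n, ?_⟩
  · intro a ha b
    obtain ⟨i, hi, j, hj, rfl⟩ := Submodule.mem_sup.1 ha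
    rw [add_mul]
    exact Submodule.add_mem_sup (h1 _ hi _) (h2 _ hj _)
  · intro x hx
    obtain ⟨b, h3, h4, h5⟩ := blocks h2 (list_of_fn hn) m (List.ofFn x) (by simp) (by
      intro a ha
      rw [List.mem_ofFn] at ha
      obtain ⟨i, rfl⟩ := ha
      exact hx i)
    rw [← h5]
    exact list_of_fn hm b h3 h4

theorem Nil_bot : Nil (⊥ : Ideal R) := by
  refine ⟨?_, 1, ?_⟩
  · intro a ha b
    rw [Submodule.mem_bot] at ha ⊢
    rw [ha, zero_mul]
  · intro x hx
    have := hx 0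
    rw [Submodule.mem_bot] at this
    simp [this]

theorem X_not_mem_sSup : X 1 ∉ sSup {I : Ideal R | Nil I} := by
  intro h
  rw [Submodule.mem_sSup_of_directed] at h
  · obtain ⟨I, hI, hx⟩ := h
    exact not_mem_of_Nil I hI hx
  · exact ⟨⊥, Nil_bot⟩
  · intro I hI J hJ
    exact ⟨I ⊔ J, Nil_sup hI hJ, le_sup_left, le_sup_right⟩

end Pool.Agent.Helper299.Jac
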