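import Pool.Agent.Helper299.Jac.Words

set_option autoImplicit false

namespace Pool.Agent.Helper299.Jac

/-- Letters: `none` is the lamp at `rho`, `some none` is the flip `a`,
`some (some v)` is the element `v` of the four-group. -/
abbrev Lt := Option (Option V)

def bp (v : V) : Equiv.Perm Om := (bf_inv v).toPerm

def ap : Equiv.Perm Om := aa_inv.toPerm

def pa : Lt → Equiv.Perm Om
  | none => 1
  | some none => ap
  | some (some v) => bp v

theorem bp_apply (v : V) (f : Om) : bp v f = bf v f := rfl

theorem ap_apply (f : Om) : ap f = aa true f := rfl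

open Classical in
/-- The lamp at `w`. -/
noncomputable def flf (w : Om) (p : Om × Bool) : Om × Bool :=
  (p.1, if p.1 = w then !p.2 else p.2)

theorem flf_inv (w : Om) : Function.Involutive (flf w) := by
  rintro ⟨f, b⟩
  unfold flf
  by_cases h : f = w <;> simp [h]

noncomputable def fl (w : Om) : Equiv.Perm (Om × Bool) := (flf_inv w).toPerm

theorem fl_apply (w : Om) (p : Om × Bool) : fl w p = flf w p := rfl

theorem fl_mul_self (w : Om) : fl w * fl w = 1 := by
  ext1 p; exact flf_inv w p

/-- Acting on the first coordinate. -/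
def pr (s : Equiv.Perm Om) : Equiv.Perm (Om × Bool) := s.prodCongr (Equiv.refl Bool)

theorem pr_apply (s : Equiv.Perm Om) (p : Om × Bool) : pr s p = (s p.1, p.2) := rfl

noncomputable def ev : Lt → Equiv.Perm (Om × Bool)
  | none => fl rho
  | some none => pr ap
  | some (some v) => pr (bp v)

/-- Ambient group. -/
abbrev Amb := Equiv.Perm Om × Equiv.Perm (Om × Bool)

noncomputable def gen (s : Lt) : Amb := (pa s, ev s)

/-- The group. -/
noncomputable def Gs : Subgroup Amb := Subgroup.closure (Set.range gen)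

abbrev G : Type := Gs

noncomputable instance : Group.FG G := by
  have : Finite (Set.range gen) := Set.finite_range gen
  exact Group.closure_finite_fg _

theorem fl_comm (v w : Om) : fl v * fl w = fl w * fl v := by
  classical
  ext1 p
  rcases p with ⟨f, b⟩
  simp only [Equiv.Perm.mul_apply, fl_apply, flf]
  refine Prod.ext rfl ?_
  simp only []
  split_ifs <;> rfl

/-- Compatibility of the two coordinates. -/
def Good (g : Amb) : Prop := ∀ w : Om, g.2 * fl w = fl (g.1 w) * g.2

theorem good_one : Good 1 := by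
  intro w; simp

theorem good_mul {g h : Amb} (hg : Good g) (hh : Good h) : Good (g * h) := by
  intro w
  change (g.2 * h.2) * fl w = fl (g.1 (h.1 w)) * (g.2 * h.2)
  rw [mul_assoc, hh w, ← mul_assoc, hg, mul_assoc]

theorem good_inv {g : Amb} (hg : Good g) : Good g⁻¹ := by
  intro w
  change g.2⁻¹ * fl w = fl (g.1⁻¹ w) * g.2⁻¹
  have := hg (g.1⁻¹ w)
  have hw : g.1 (g.1⁻¹ w) = w := g.1.apply_symm_apply w
  rw [hw] at this
  rw [inv_mul_eq_iff_eq_mul, ← mul_assoc, this, mul_assoc, mul_inv_cancel, mul_one]

theorem pr_fl (s : Equiv.Perm Om) (w : Om) : pr s * fl w = fl (s w) * pr s := by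
  ext1 p
  rcases p with ⟨f, b⟩
  simp only [Equiv.Perm.mul_apply, fl_apply, flf, pr_apply]
  by_cases h : f = w <;> simp [h]

theorem good_gen (s : Lt) : Good (gen s) := by
  rcases s with _ | _ | v
  · intro w
    exact fl_comm rho w
  · intro w
    exact pr_fl ap w
  · intro w
    exact pr_fl (bp v) w

theorem good_G (g : G) : Good g.1 := by
  have h : ∀ x ∈ Gs, Good x := by
    intro x hx
    refine Subgroup.closure_induction (p := fun x _ => Good x) ?_ good_one ?_ ?_ hx
    · rintro _ ⟨s, rfl⟩; exact good_gen s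
    · intro x y _ _ hx hy; exact good_mul hx hy
    · intro x _ hx; exact good_inv hx
  exact h g.1 g.2

theorem gen_mul_self (s : Lt) : gen s * gen s = 1 := by
  rcases s with _ | _ | v
  · refine Prod.ext ?_ ?_
    · exact mul_one 1
    · exact fl_mul_self rho
  · refine Prod.ext ?_ ?_
    · ext1 f; exact aa_inv f
    · ext1 p
      exact Prod.ext (aa_inv p.1) rfl
  · refine Prod.ext ?_ ?_
    · ext1 f; exact bf_inv v f
    · ext1 p
      exact Prod.ext (bf_inv v p.1) rfl

theorem gen_inv (s : Lt) : (gen s)⁻¹ = gen s :=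
  inv_eq_of_mul_eq_one_left (gen_mul_self s)

/-- Every element is a word in the generators. -/
theorem exists_word (g : G) : ∃ w : List Lt, (w.map gen).prod = g.1 := by
  have h : ∀ x ∈ Gs, ∃ w : List Lt, (w.map gen).prod = x := by
    intro x hx
    refine Subgroup.closure_induction (p := fun x _ => ∃ w : List Lt, (w.map gen).prod = x)
      ?_ ⟨[], rfl⟩ ?_ ?_ hx
    · rintro _ ⟨s, rfl⟩; exact ⟨[s], by simp⟩
    · rintro x y _ _ ⟨u, rfl⟩ ⟨v, rfl⟩; exact ⟨u ++ v, by simp⟩
    · rintro x _ ⟨u, rfl⟩
      refine ⟨u.reverse, ?_⟩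
      rw [List.prod_inv_reverse, List.map_map]
      rw [← List.map_reverse]
      congr 1
      apply List.map_congr_left
      intro s _
      exact (gen_inv s).symm
  exact h g.1 g.2

noncomputable def wd (g : G) : List Lt := (exists_word g).choose

theorem wd_spec (g : G) : ((wd g).map gen).prod = g.1 := (exists_word g).choose_spec

theorem gen_mem (s : Lt) : gen s ∈ Gs := Subgroup.subset_closure ⟨s, rfl⟩

theorem word_mem (w : List Lt) : (w.map gen).prod ∈ Gs := by
  apply Subgroup.list_prod_mem
  intro x hx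
  rw [List.mem_map] at hx
  obtain ⟨s, _, rfl⟩ := hx
  exact gen_mem s

/-- the point `g rho`. -/
def pt (g : G) : Om := g.1.1 rho

open Classical in
noncomputable def Orb : List Lt → Finset Om
  | [] => {rho}
  | s :: w => insert rho ((Orb w).image (pa s))

theorem rho_mem_Orb (w : List Lt) : rho ∈ Orb w := by
  cases w <;> simp [Orb]

def conv : List Lt → List V
  | [] => []
  | none :: w => conv w
  | some none :: w => (false, false) :: conv w
  | some (some v) :: w => mulL v (conv w)

theorem Orb_sub (w : List Lt) : Orb w ⊆ O (conv w) := by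
  induction w with
  | nil => intro f hf; simpa [Orb, conv, O] using hf
  | cons s w ih =>
    intro f hf
    simp only [Orb, Finset.mem_insert, Finset.mem_image] at hf
    rcases hf with rfl | ⟨g, hg, rfl⟩
    · exact rho_mem_O _
    · have hg' := ih hg
      rcases s with _ | _ | v
      · exact hg'
      · simp only [conv, O, Finset.mem_insert, Finset.mem_image]
        right
        exact ⟨g, hg', bf_zero _⟩
      · exact mem_O_mulL v _ g hg'

theorem wt_conv (w : List Lt) : wt (conv w) ≤ 4 * w.length := by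
  induction w with
  | nil => simp [conv, wt]
  | cons s w ih =>
    rcases s with _ | _ | v
    · simp only [conv, List.length_cons]; omega
    · simp only [conv, wt, al, List.length_cons]; omega
    · simp only [conv, List.length_cons]
      have := wt_mulL v (conv w)
      have := al_le v
      omega

theorem card_Orb (k : ℕ) (w : List Lt) :
    3 * 7 ^ k * (Orb w).card ≤ 6 ^ k * (4 * w.length) + 3 * 14 ^ k := by
  have h1 := Finset.card_le_card (Orb_sub w)
  have h2 := card_O k (conv w)
  have h3 := wt_conv w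
  calc 3 * 7 ^ k * (Orb w).card ≤ 3 * 7 ^ k * (O (conv w)).card := Nat.mul_le_mul_left _ h1
    _ ≤ 6 ^ k * wt (conv w) + 3 * 14 ^ k := h2
    _ ≤ 6 ^ k * (4 * w.length) + 3 * 14 ^ k := Nat.add_le_add_right (Nat.mul_le_mul_left _ h3) _

theorem Orb_append (u w : List Lt) (f : Om) (hf : f ∈ Orb w) :
    (u.map gen).prod.1 f ∈ Orb (u ++ w) := by
  induction u with
  | nil => simpa using hf
  | cons s u ih =>
    simp only [List.cons_append, Orb, Finset.mem_insert, Finset.mem_image]
    right
    refine ⟨_, ih, ?_⟩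
    simp [gen]

theorem Orb_wd (g : G) (w : List Lt) (f : Om) (hf : f ∈ Orb w) :
    g.1.1 f ∈ Orb (wd g ++ w) := by
  have := Orb_append (wd g) w f hf
  rwa [wd_spec] at this

/-- Prefix products. -/
noncomputable def Px : List G → List G
  | [] => []
  | g :: l => g :: (Px l).map (fun h => g * h)

theorem length_Px (l : List G) : (Px l).length = l.length := by
  induction l with
  | nil => rfl
  | cons g l ih => simp [Px, ih]

theorem pt_mul (g h : G) : pt (g * h) = g.1.1 (pt h) := rfl

theorem pt_Px (l : List G) : ∀ h ∈ Px l, pt h ∈ Orb (l.flatMap wd) := by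
  induction l with
  | nil => intro h hh; simp [Px] at hh
  | cons g l ih =>
    intro h hh
    simp only [Px, List.mem_cons, List.mem_map] at hh
    rw [List.flatMap_cons]
    rcases hh with rfl | ⟨k, hk, rfl⟩
    · exact Orb_wd h _ rho (rho_mem_Orb _)
    · rw [pt_mul]
      exact Orb_wd g _ _ (ih k hk)

theorem length_flatMap_wd (l : List G) (L : ℕ) (hl : ∀ g ∈ l, (wd g).length ≤ L) :
    (l.flatMap wd).length ≤ l.length * L := by
  induction l with
  | nil => simp
  | cons g l ih =>
    rw [List.flatMap_cons, List.length_append, List.length_cons, Nat.add_mul, Nat.one_mul]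
    have h1 := hl g (by simp)
    have h2 := ih (fun g hg => hl g (by simp [hg]))
    omega

/-- For a suitable length, the prefix products of any long list of elements of
bounded word length have two equal points. -/
theorem exists_bound (L : ℕ) : ∃ k : ℕ, ∀ l : List G, l.length = k →
    (∀ g ∈ l, (wd g).length ≤ L) → ¬ ((Px l).map pt).Nodup := by
  classical
  obtain ⟨m, hm⟩ : ∃ m : ℕ, 6 ^ m * (4 * L) ≤ 7 ^ m := by
    have h1 : (1 : ℝ) < 7 / 6 := by norm_num
    obtain ⟨m, hm⟩ := pow_unbounded_of_one_lt ((4 * L : ℕ) : ℝ) h1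
    refine ⟨m, ?_⟩
    rw [div_pow, lt_div_iff₀ (by positivity)] at hm
    have : ((6 ^ m * (4 * L) : ℕ) : ℝ) ≤ ((7 ^ m : ℕ) : ℝ) := by
      push_cast at hm ⊢
      linarith
    exact_mod_cast this
  refine ⟨3 * 2 ^ m, ?_⟩
  intro l hl hL hnd
  have hsub : ((Px l).map pt).toFinset ⊆ Orb (l.flatMap wd) := by
    intro f hf
    rw [List.mem_toFinset, List.mem_map] at hf
    obtain ⟨h, hh, rfl⟩ := hf
    exact pt_Px l h hh
  have h1 := Finset.card_le_card hsub
  rw [List.toFinset_card_of_nodup hnd, List.length_map, length_Px, hl] at h1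
  have h2 := card_Orb m (l.flatMap wd)
  have h3 := length_flatMap_wd l L hL
  rw [hl] at h3
  have h4 : 3 * 7 ^ m * (3 * 2 ^ m) ≤ 3 * 2 ^ m * 7 ^ m + 3 * (2 ^ m * 7 ^ m) := by
    calc 3 * 7 ^ m * (3 * 2 ^ m) ≤ 3 * 7 ^ m * (Orb (l.flatMap wd)).card :=
          Nat.mul_le_mul_left _ h1
      _ ≤ 6 ^ m * (4 * (l.flatMap wd).length) + 3 * 14 ^ m := h2
      _ ≤ 6 ^ m * (4 * (3 * 2 ^ m * L)) + 3 * 14 ^ m :=
          Nat.add_le_add_right (Nat.mul_le_mul_left _ (Nat.mul_le_mul_left _ h3)) _
      _ = 3 * 2 ^ m * (6 ^ m * (4 * L)) + 3 * (2 ^ m * 7 ^ m) := by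
          rw [show (14 : ℕ) = 2 * 7 from rfl, Nat.mul_pow]; ring
      _ ≤ 3 * 2 ^ m * 7 ^ m + 3 * (2 ^ m * 7 ^ m) :=
          Nat.add_le_add_right (Nat.mul_le_mul_left _ hm) _
  have h5 : 0 < 7 ^ m * 2 ^ m := by positivity
  have h6 : 3 * 7 ^ m * (3 * 2 ^ m) = 9 * (7 ^ m * 2 ^ m) := by ring
  have h7 : 3 * 2 ^ m * 7 ^ m + 3 * (2 ^ m * 7 ^ m) = 6 * (7 ^ m * 2 ^ m) := by ring
  omega

/-! Infinitely many points in the orbit of `rho`. -/

theorem exists_lift (s : Lt) : ∃ u : List Lt, ∀ f : Om,
    (u.map gen).prod.1 (cn true f) = cn true (pa s f) := by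
  rcases s with _ | _ | v
  · exact ⟨[], fun f => rfl⟩
  · refine ⟨[some none, some (some (true, false)), some none], fun f => ?_⟩
    have h : ([some none, some (some (true, false)), some none].map gen).prod.1 (cn true f)
        = aa true (bf (true, false) (aa true (cn true f))) := by
      simp [gen, pa, ap_apply, bp_apply]
    rw [h, aa_cn]
    have h2 : (xor true true) = false := rfl
    rw [h2, bf_cn_false, aa_cn]
    rfl
  · obtain ⟨w, hw⟩ := sg_surj v
    refine ⟨[some (some w)], fun f => ?_⟩
    have h : ([some (some w)].map gen).prod.1 (cn true f) = bf w (cn true f) := by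
      simp [gen, pa, bp_apply]
    rw [h, bf_cn_true, hw]
    rfl

theorem orbit_cn (w : List Lt) : ∃ u : List Lt,
    (u.map gen).prod.1 rho = cn true ((w.map gen).prod.1 rho) := by
  induction w with
  | nil => exact ⟨[], cn_rho.symm⟩
  | cons s w ih =>
    obtain ⟨u, hu⟩ := ih
    obtain ⟨v, hv⟩ := exists_lift s
    refine ⟨v ++ u, ?_⟩
    rw [List.map_append, List.prod_append, List.map_cons, List.prod_cons]
    change (v.map gen).prod.1 ((u.map gen).prod.1 rho) = cn true (pa s ((w.map gen).prod.1 rho))
    rw [hu, hv]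

def rr (k : ℕ) : Om := fun i => decide (i ≠ k)

theorem rr_mem (k : ℕ) : ∃ u : List Lt, (u.map gen).prod.1 rho = rr k := by
  induction k with
  | zero =>
    refine ⟨[some none], ?_⟩
    have h : ([some none].map gen).prod.1 rho = aa true rho := by
      simp [gen, pa, ap_apply]
    rw [h]
    funext i
    cases i with
    | zero => rfl
    | succ i => simp [aa, rr, rho]
  | succ k ih =>
    obtain ⟨u, hu⟩ := ih
    obtain ⟨v, hv⟩ := orbit_cn u
    refine ⟨v, ?_⟩
    rw [hv, hu]
    funext i
    cases i with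
    | zero => simp [cn, rr]
    | succ i => simp [cn, rr]

theorem exists_pt (k : ℕ) : ∃ g : G, pt g = rr k := by
  obtain ⟨u, hu⟩ := rr_mem k
  exact ⟨⟨_, word_mem u⟩, hu⟩

noncomputable def hh (k : ℕ) : G := (exists_pt k).choose

theorem pt_hh (k : ℕ) : pt (hh k) = rr k := (exists_pt k).choose_spec

theorem rr_inj : Function.Injective rr := by
  intro k l h
  by_contra hkl
  have := congrFun h k
  simp [rr, hkl] at this

end Pool.Agent.Helper299.Jac
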