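import Mathlib

set_option autoImplicit false

namespace Pool.Agent.Helper299.Jac

/-- The four-group. -/
abbrev V := Bool × Bool

def addV (v w : V) : V := (xor v.1 w.1, xor v.2 w.2)

def th (v : V) : Bool := xor v.1 v.2

def sg (v : V) : V := (v.2, xor v.1 v.2)

def al : V → ℕ
  | (false, false) => 0
  | (true, false) => 4
  | (false, true) => 3
  | (true, true) => 2

def tw (v : V) : ℕ := if th v then 3 else 0

theorem al_add (v w : V) : al (addV v w) ≤ al v + al w := by
  revert v w; decide

theorem al_le (v : V) : al v ≤ 4 := by
  revert v; decide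

theorem al_sec (v : V) : 7 * (tw v + al (sg v)) ≤ 6 * (3 + al v) := by
  revert v; decide

theorem th_add (v w : V) : th (addV v w) = xor (th v) (th w) := by
  revert v w; decide

theorem sg_add (v w : V) : sg (addV v w) = addV (sg v) (sg w) := by
  revert v w; decide

theorem sg_surj (v : V) : ∃ w, sg w = v := by
  revert v; decide

/-- Points of the boundary of the binary tree. -/
abbrev Om := ℕ → Bool

def cn (i : Bool) (f : Om) : Om
  | 0 => i
  | n + 1 => f n

def sh (f : Om) : Om := fun n => f (n + 1)

theorem cn_sh (f : Om) : cn (f 0) (sh f) = f := by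
  funext n; cases n <;> rfl

theorem sh_cn (i : Bool) (f : Om) : sh (cn i f) = f := rfl

theorem cn_inj {i j : Bool} {f g : Om} (h : cn i f = cn j g) : i = j ∧ f = g := by
  constructor
  · exact congrFun h 0
  · funext n; exact congrFun h (n + 1)

/-- Flip the first coordinate if `t` holds. -/
def aa (t : Bool) (f : Om) : Om
  | 0 => xor (f 0) t
  | n + 1 => f (n + 1)

def bb : ℕ → V → Om → Bool
  | 0, _, f => f 0
  | n + 1, v, f => if f 0 then bb n (sg v) (sh f) else aa (th v) (sh f) n

/-- The action of an element of the four-group. -/
def bf (v : V) (f : Om) : Om := fun n => bb n v f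

def rho : Om := fun _ => true

theorem aa_aa (s t : Bool) (f : Om) : aa s (aa t f) = aa (xor s t) f := by
  funext n
  cases n with
  | zero => simp only [aa]; cases f 0 <;> cases s <;> cases t <;> rfl
  | succ n => rfl

theorem aa_false (f : Om) : aa false f = f := by
  funext n
  cases n with
  | zero => simp [aa]
  | succ n => rfl

theorem aa_cn (t i : Bool) (f : Om) : aa t (cn i f) = cn (xor i t) f := by
  funext n; cases n <;> rfl

theorem bf_cn_true (v : V) (f : Om) : bf v (cn true f) = cn true (bf (sg v) f) := by
  funext n
  cases n with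
  | zero => rfl
  | succ n => simp [bf, bb, cn, sh_cn]

theorem bf_cn_false (v : V) (f : Om) : bf v (cn false f) = cn false (aa (th v) f) := by
  funext n
  cases n with
  | zero => rfl
  | succ n => simp [bf, bb, cn, sh_cn]

theorem bb_bf (n : ℕ) : ∀ (v w : V) (f : Om), bb n v (bf w f) = bb n (addV v w) f := by
  induction n with
  | zero => intro v w f; rfl
  | succ n ih =>
    intro v w f
    have hf := cn_sh f
    cases h0 : f 0 with
    | false =>
      rw [h0] at hf
      rw [← hf, bf_cn_false]
      change (bf v (cn false (aa (th w) (sh f)))) (n + 1) = (bf (addV v w) (cn false (sh f))) (n + 1)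
      rw [bf_cn_false, bf_cn_false, aa_aa, th_add]
    | true =>
      rw [h0] at hf
      rw [← hf, bf_cn_true]
      change (bf v (cn true (bf (sg w) (sh f)))) (n + 1) = (bf (addV v w) (cn true (sh f))) (n + 1)
      rw [bf_cn_true, bf_cn_true]
      change bb n (sg v) (bf (sg w) (sh f)) = bb n (sg (addV v w)) (sh f)
      rw [ih, sg_add]

theorem bf_bf (v w : V) (f : Om) : bf v (bf w f) = bf (addV v w) f := by
  funext n; exact bb_bf n v w f

theorem bb_zero (n : ℕ) : ∀ f : Om, bb n (false, false) f = f n := by
  induction n with
  | zero => intro f; rfl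
  | succ n ih =>
    intro f
    have h1 : sg (false, false) = (false, false) := rfl
    have h2 : th (false, false) = false := rfl
    simp only [bb, h1, h2, ih, aa_false]
    split <;> rfl

theorem bf_zero (f : Om) : bf (false, false) f = f := by
  funext n; exact bb_zero n f

theorem addV_self (v : V) : addV v v = (false, false) := by
  revert v; decide

theorem bf_inv (v : V) : Function.Involutive (bf v) := by
  intro f; rw [bf_bf, addV_self, bf_zero]

theorem aa_inv : Function.Involutive (aa true) := by
  intro f; rw [aa_aa]; exact aa_false f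

theorem cn_rho : cn true rho = rho := by
  funext n; cases n <;> rfl

theorem bb_rho (n : ℕ) : ∀ v : V, bb n v rho = true := by
  induction n with
  | zero => intro v; rfl
  | succ n ih =>
    intro v
    have h : sh rho = rho := rfl
    simp only [bb, h, ih]
    simp [rho]

theorem bf_rho (v : V) : bf v rho = rho := by
  funext n; exact bb_rho n v

/-! Orbits of words -/

open Classical in
/-- Inverted orbit of the ray `rho` under the word `x₁ a x₂ a ...`. -/
noncomputable def O : List V → Finset Om
  | [] => {rho}
  | x :: L => insert rho ((O L).image (fun f => bf x (aa true f)))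

theorem rho_mem_O (L : List V) : rho ∈ O L := by
  cases L <;> simp [O]

def mulL (v : V) : List V → List V
  | [] => []
  | y :: L => addV v y :: L

theorem mem_O_mulL (v : V) (L : List V) (f : Om) : f ∈ O L → bf v f ∈ O (mulL v L) := by
  cases L with
  | nil =>
    intro h
    simp only [O, Finset.mem_singleton] at h
    simp [mulL, O, h, bf_rho]
  | cons y L =>
    intro h
    simp only [O, Finset.mem_insert, Finset.mem_image] at h
    simp only [mulL, O, Finset.mem_insert, Finset.mem_image]
    rcases h with h | ⟨g, hg, rfl⟩
    · left; rw [h, bf_rho]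
    · right; exact ⟨g, hg, by rw [bf_bf]⟩

/-- Sections of a word. -/
def sec : List V → List V × List V
  | [] => ([], [])
  | x :: L => ((if th x then (false, false) :: (sec L).2 else (sec L).2), mulL (sg x) (sec L).1)

def wt : List V → ℕ
  | [] => 0
  | x :: L => 3 + al x + wt L

theorem wt_mulL (v : V) (L : List V) : wt (mulL v L) ≤ al v + wt L := by
  cases L with
  | nil => simp [mulL, wt]
  | cons y L =>
    simp only [mulL, wt]
    have := al_add v y
    omega

theorem wt_sec (L : List V) : 7 * (wt (sec L).1 + wt (sec L).2) ≤ 6 * wt L := by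
  induction L with
  | nil => simp [sec, wt]
  | cons x L ih =>
    simp only [sec, wt]
    have h1 := al_sec x
    have h2 := wt_mulL (sg x) (sec L).1
    have h3 : wt (if th x then (false, false) :: (sec L).2 else (sec L).2) ≤ tw x + wt (sec L).2 := by
      unfold tw
      split
      · simp [wt, al]
      · simp
    omega

theorem O_sec (L : List V) (f : Om) (hf : f ∈ O L) :
    (∃ g ∈ O (sec L).1, f = cn false g) ∨ (∃ g ∈ O (sec L).2, f = cn true g) := by
  induction L generalizing f with
  | nil =>
    right
    simp only [O, Finset.mem_singleton] at hf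
    exact ⟨rho, by simp [sec, O], by rw [hf, cn_rho]⟩
  | cons x L ih =>
    simp only [O, Finset.mem_insert, Finset.mem_image] at hf
    rcases hf with hf | ⟨g, hg, rfl⟩
    · right
      exact ⟨rho, rho_mem_O _, by rw [hf, cn_rho]⟩
    · rcases ih g hg with ⟨k, hk, rfl⟩ | ⟨k, hk, rfl⟩
      · right
        refine ⟨bf (sg x) k, mem_O_mulL _ _ _ hk, ?_⟩
        rw [aa_cn]
        exact bf_cn_true x k
      · left
        refine ⟨aa (th x) k, ?_, ?_⟩
        · simp only [sec]
          split
          · rename_i h
            simp only [O, Finset.mem_insert, Finset.mem_image]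
            right
            exact ⟨k, hk, by rw [bf_zero, h]⟩
          · rename_i h
            have h' : th x = false := by simpa using h
            rw [h', aa_false]; exact hk
        · rw [aa_cn]
          exact bf_cn_false x k

theorem card_O_sec (L : List V) : (O L).card ≤ (O (sec L).1).card + (O (sec L).2).card := by
  classical
  have h : O L ⊆ (O (sec L).1).image (cn false) ∪ (O (sec L).2).image (cn true) := by
    intro f hf
    simp only [Finset.mem_union, Finset.mem_image]
    rcases O_sec L f hf with ⟨g, hg, rfl⟩ | ⟨g, hg, rfl⟩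
    · left; exact ⟨g, hg, rfl⟩
    · right; exact ⟨g, hg, rfl⟩
  calc (O L).card ≤ ((O (sec L).1).image (cn false) ∪ (O (sec L).2).image (cn true)).card :=
        Finset.card_le_card h
    _ ≤ ((O (sec L).1).image (cn false)).card + ((O (sec L).2).image (cn true)).card :=
        Finset.card_union_le _ _
    _ ≤ (O (sec L).1).card + (O (sec L).2).card :=
        Nat.add_le_add Finset.card_image_le Finset.card_image_le

theorem card_O_wt (L : List V) : 3 * (O L).card ≤ wt L + 3 := by
  classical
  induction L with
  | nil => simp [O, wt]
  | cons x L ih =>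
    simp only [O, wt]
    have h1 := Finset.card_insert_le rho ((O L).image (fun f => bf x (aa true f)))
    have h2 : ((O L).image (fun f => bf x (aa true f))).card ≤ (O L).card := Finset.card_image_le
    omega

theorem card_O (k : ℕ) : ∀ L : List V, 3 * 7 ^ k * (O L).card ≤ 6 ^ k * wt L + 3 * 14 ^ k := by
  induction k with
  | zero => intro L; have := card_O_wt L; omega
  | succ k ih =>
    intro L
    have h1 := card_O_sec L
    have h2 := ih (sec L).1
    have h3 := ih (sec L).2
    have h4 := wt_sec L
    calc 3 * 7 ^ (k + 1) * (O L).card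
        ≤ 3 * 7 ^ (k + 1) * ((O (sec L).1).card + (O (sec L).2).card) := Nat.mul_le_mul_left _ h1
      _ = 7 * (3 * 7 ^ k * (O (sec L).1).card + 3 * 7 ^ k * (O (sec L).2).card) := by ring
      _ ≤ 7 * ((6 ^ k * wt (sec L).1 + 3 * 14 ^ k) + (6 ^ k * wt (sec L).2 + 3 * 14 ^ k)) :=
          Nat.mul_le_mul_left _ (Nat.add_le_add h2 h3)
      _ = 6 ^ k * (7 * (wt (sec L).1 + wt (sec L).2)) + 3 * 14 ^ (k + 1) := by ring
      _ ≤ 6 ^ k * (6 * wt L) + 3 * 14 ^ (k + 1) :=
          Nat.add_le_add_right (Nat.mul_le_mul_left _ h4) _
      _ = 6 ^ (k + 1) * wt L + 3 * 14 ^ (k + 1) := by ring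

end Pool.Agent.Helper299.Jac
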